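import Mathlib

namespace H11.TwoThree

/-- `p` divides no `n > 1` with `2^n ≡ 3 (mod n)`. -/
def InP (p : ℕ) : Prop := p.Prime ∧ ∀ n : ℕ, 1 < n → 2 ^ n ≡ 3 [MOD n] → ¬ p ∣ n

theorem cast_eq {p n : ℕ} (h : 2 ^ n ≡ 3 [MOD n]) (hp : p ∣ n) : (2 : ZMod p) ^ n = 3 := by
  have := (ZMod.natCast_eq_natCast_iff _ _ _).2 (h.of_dvd hp)
  exact_mod_cast this

theorem odd_of {n : ℕ} (hn : 1 < n) (h : 2 ^ n ≡ 3 [MOD n]) : Odd n := by
  by_contra h2
  have h3 := h.of_dvd (Nat.not_odd_iff_even.1 h2).two_dvd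
  have h4 : 2 ∣ 2 ^ n := dvd_pow_self 2 (by omega)
  unfold Nat.ModEq at h3
  omega

end H11.TwoThree

namespace Pool.Agent.Results.MP_2ac10d_nt.Criteria

open H11.TwoThree

theorem aux :
    (∀ p q t : ℕ, p.Prime → p ≠ 2 → InP q → q ∣ orderOf (2 : ZMod p) →
      (2 : ZMod p) ^ (q * t) = 3 → InP p) ∧
    (∀ p : ℕ, p.Prime → p % 24 ∈ ({7, 11, 13, 17} : Set ℕ) → InP p) ∧
    {p : ℕ | InP p}.Infinite := by
  have B : ∀ p : ℕ, p.Prime → p % 24 ∈ ({7, 11, 13, 17} : Set ℕ) → InP p := by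
    intro p hp hm
    simp only [Set.mem_insert_iff, Set.mem_singleton_iff] at hm
    refine ⟨hp, fun n hn h hd => ?_⟩
    obtain ⟨m, hm'⟩ := odd_of hn h
    have h1 := cast_eq h hd
    have h2 : jacobiSym 6 p = -1 := by
      rw [jacobiSym.mod_right 6 (Nat.odd_iff.2 (by omega))]
      rcases hm with e | e | e | e <;> (rw [show p % (4 * Int.natAbs 6) = p % 24 from rfl, e]; norm_num)
    refine ZMod.nonsquare_of_jacobiSym_eq_neg_one h2 ⟨2 ^ (m + 1), ?_⟩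
    rw [hm'] at h1
    push_cast
    linear_combination -2 * h1
  refine ⟨fun p q t hp h2 hq ho ht => ⟨hp, fun n hn h hd => hq.2 n hn h ?_⟩, B, ?_⟩
  · haveI := Fact.mk hp
    have h0 : (2 : ZMod p) ≠ 0 := by
      intro h0
      have : p ∣ 2 := (ZMod.natCast_eq_zero_iff 2 p).1 (by exact_mod_cast h0)
      exact h2 ((Nat.prime_dvd_prime_iff_eq hp Nat.prime_two).1 this)
    have hf : IsOfFinOrder (2 : ZMod p) :=
      isOfFinOrder_iff_pow_eq_one.2 ⟨p - 1, by have := hp.two_le; omega,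
        ZMod.pow_card_sub_one_eq_one h0⟩
    have h3 := (hf.pow_eq_pow_iff_modEq.1 ((cast_eq h hd).trans ht.symm)).of_dvd ho
    exact (h3.dvd_iff dvd_rfl).2 (dvd_mul_right q t)
  · refine (Nat.infinite_setOf_prime_and_modEq (q := 24) (a := 7) (by norm_num)
      (by norm_num)).mono fun p hp => B p hp.1 ?_
    have := hp.2
    unfold Nat.ModEq at this
    simp [this]

theorem result (p : ℕ) (hp : p.Prime) (h : p % 24 ∈ ({7, 11, 13, 17} : Set ℕ)) : InP p :=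
  aux.2.1 p hp h

end Pool.Agent.Results.MP_2ac10d_nt.Criteria
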